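import Pool.Agent.Run7.h802.FH.Main2
import Pool.Agent.Run7.h802.FH.Pieces2

/-! Shafarevich finiteness for almost all hypersurfaces over the rationals, of every degree at least
three and every dimension, with an explicit bound.
A project led by helper802; pieces by helper771, helper799, helper321, helper351, helper580, and the
theorem on radicals of helper742 (and, from an earlier project, by helper115, helper216, helper468,
helper590, helper633, helper796, helper882). -/

set_option autoImplicit false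

namespace Pool.Agent.Results.MP_78e9a5_nt.AlmostAllHypersurfaces

open MvPolynomial

/-- The exponents of the monomials of degree `d` in `X_0, ..., X_(n+1)`. -/
abbrev Exponent (n d : ℕ) : Type := {m : Fin (n + 2) → Fin (d + 1) // ∑ i, (m i : ℕ) = d}

/-- The form of degree `d` with the coefficients `a`. -/
noncomputable def form {R : Type} [CommRing R] {n d : ℕ} (a : Exponent n d → R) :
    MvPolynomial (Fin (n + 2)) R :=
  ∑ m, C (a m) * ∏ i, X i ^ ((m.1 i : Fin (d + 1)) : ℕ)

/-- `x` is a zero of the form with the coefficients `a` and of its partial derivatives. -/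
def IsSingularZero {R : Type} [CommRing R] {n d : ℕ} (a : Exponent n d → R)
    (x : Fin (n + 2) → R) : Prop :=
  eval x (form a) = 0 ∧ ∀ i, eval x (pderiv i (form a)) = 0

/-- The hypersurface `X_a` with the equation `form a = 0` over the rationals is smooth. -/
def IsSmooth {n d : ℕ} (a : Exponent n d → ℤ) : Prop :=
  ∀ (k : Type) [Field k] [CharZero k] (x : Fin (n + 2) → k),
    IsSingularZero (fun m => ((a m : ℤ) : k)) x → x = 0

/-- The hypersurface with the equation `form a = 0` modulo `p` is smooth. -/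
def HasGoodReduction {n d : ℕ} (a : Exponent n d → ℤ) (p : ℕ) : Prop :=
  ∀ (k : Type) [Field k] [CharP k p] (x : Fin (n + 2) → k),
    IsSingularZero (fun m => ((a m : ℤ) : k)) x → x = 0

/-- The hypersurface with the equation `form a = 0` modulo `p` has exactly one singular point over
the algebraic closure; it is the rational point `(1 : x_1 : ... : x_(n+1))`, and the determinant of
the second partial derivatives with respect to `X_1, ..., X_(n+1)` is not zero there: it is an
ordinary double point. -/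
def HasOneNode {n d : ℕ} (a : Exponent n d → ℤ) (p : ℕ) : Prop :=
  ∃ x : Fin (n + 2) → ℤ, x 0 = 1 ∧ (p : ℤ) ∣ eval x (form a) ∧
    (∀ i : Fin (n + 1), (p : ℤ) ∣ eval x (pderiv i.succ (form a))) ∧
    ¬ (p : ℤ) ∣ Matrix.det (Matrix.of fun i j : Fin (n + 1) =>
      eval x (pderiv i.succ (pderiv j.succ (form a)))) ∧
    ∀ (k : Type) [Field k] [CharP k p] (y : Fin (n + 2) → k),
      IsSingularZero (fun m => ((a m : ℤ) : k)) y → ∀ i, y i = y 0 * ((x i : ℤ) : k)

/-- The hypersurface over the integers with the equation `form a = 0` is smooth over the rationals,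
and modulo each prime it is smooth or has one ordinary double point. -/
def IsSemistable {n d : ℕ} (a : Exponent n d → ℤ) : Prop :=
  IsSmooth a ∧ ∀ p : ℕ, p.Prime → HasGoodReduction a p ∨ HasOneNode a p

/-- `X_a` has good reduction at all primes which do not divide `N`. -/
def GoodOutside {n d : ℕ} (a : Exponent n d → ℤ) (N : ℕ) : Prop :=
  ∀ p : ℕ, p.Prime → ¬ p ∣ N → HasGoodReduction a p

/-- The exceptional forms: smooth forms `a` with a coefficient greater than `N ^ κ` for some `N ≥ 1`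
such that `X_a` has good reduction at all primes which do not divide `N`. -/
def Exceptional {n d : ℕ} (κ : ℝ) (a : Exponent n d → ℤ) : Prop :=
  IsSmooth a ∧ ∃ N : ℕ, N ≠ 0 ∧ GoodOutside a N ∧ ∃ m, (N : ℝ) ^ κ < |(a m : ℝ)|

section

open Pool.Agent.Run7.h802.HP Pool.Agent.Run7.h802.FH

/-- The logarithm of the sum of the absolute values of the coefficients. -/
noncomputable def ht {n d : ℕ} (a : Mon n d → ℤ) : ℝ := Real.log (∑ m, |(a m : ℝ)|)

theorem ht_le (n d : ℕ) : ∃ C₀ : ℝ, ∀ (a : Mon n d → ℤ) (M : ℝ), 1 ≤ M → GenSmooth a →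
    (∀ m, |(a m : ℝ)| ≤ M) → ht a ≤ 1 * Real.log M + C₀ := by
  refine ⟨Real.log (Fintype.card (Mon n d) + 1), fun a M hM _ ha => ?_⟩
  have hM0 : (0 : ℝ) < M := by linarith
  have h1 : ∑ m, |(a m : ℝ)| ≤ M * (Fintype.card (Mon n d) + 1) := by
    have h2 : ∑ m, |(a m : ℝ)| ≤ ∑ _m : Mon n d, M := Finset.sum_le_sum fun m _ => ha m
    rw [Finset.sum_const, Finset.card_univ, nsmul_eq_mul] at h2
    nlinarith
  unfold ht
  rw [one_mul, ← Real.log_mul hM0.ne' (by positivity)]
  by_cases h0 : 0 < ∑ m, |(a m : ℝ)|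
  · exact Real.log_le_log h0 h1
  · have h2 : ∑ m, |(a m : ℝ)| = 0 :=
      le_antisymm (not_lt.1 h0) (Finset.sum_nonneg fun _ _ => abs_nonneg _)
    rw [h2, Real.log_zero]
    apply Real.log_nonneg
    have : (0 : ℝ) ≤ Fintype.card (Mon n d) := Nat.cast_nonneg _
    nlinarith

theorem not_exc {n d : ℕ} (κ : ℝ) (a : Mon n d → ℤ) (h : Bd ht κ a) :
    ¬ Exceptional (n := n) (d := d) κ a := by
  rintro ⟨-, N, hN, hg, m, hm⟩
  have h1 := h.2 N hN fun p hp _ hb => by
    by_contra hn
    exact hb (hg p hp hn)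
  have hNr : (0 : ℝ) < N := by exact_mod_cast Nat.pos_of_ne_zero hN
  have h2 : (N : ℝ) ^ κ < ∑ m, |(a m : ℝ)| :=
    hm.trans_le (Finset.single_le_sum (f := fun m => |(a m : ℝ)|) (fun _ _ => abs_nonneg _)
      (Finset.mem_univ m))
  have h3 := Real.log_lt_log (by positivity) h2
  rw [Real.log_rpow hNr] at h3
  exact absurd h1 (not_le.2 h3)

theorem node_of {n d : ℕ} (a : Exponent n d → ℤ) (p : ℕ) (h : NodeAt (n := n) (d := d) a p) :
    HasOneNode a p := by
  obtain ⟨x, k, hk, hx0, h1, -, h3, h4, h5⟩ := h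
  have hpk : (p : ℤ) ∣ (p : ℤ) ^ k := dvd_pow_self _ (by omega)
  have hpk' : (p : ℤ) ∣ (p : ℤ) ^ (k + 1) := dvd_pow_self _ (by omega)
  exact ⟨x, hx0, hpk.trans h1, fun i => hpk'.trans (h3 i), h4, h5⟩

end

/-- Let `n ≥ 1`, `d ≥ 3` and `ε > 0`, and let `M` be the number of monomials of degree `d` in `n + 2`
variables. With `κ = 1 / 2 + ε` there are at most `C * H ^ (M - η)` exceptional forms with
coefficients at most `H`, where `η > 0`, and
(1) for every `N ≥ 1` there are only finitely many smooth forms `a` over the integers which are not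
exceptional and whose hypersurface `X_a` has good reduction at all primes which do not divide `N`;
their number is at most `(2 N ^ κ + 1) ^ M`;
(2) for all `ε₁ > 0` there is `B` such that for all `Q` divisible by all primes up to `B` and for each
form `c` with good reduction at the primes dividing `Q`, a proportion at least `1 - ε₁` of the forms
`c + Q b` is semistable and not exceptional;
(3) a positive proportion of all forms is semistable and not exceptional. -/
theorem result (n d : ℕ) (hn : 1 ≤ n) (hd : 3 ≤ d) (ε : ℝ) (hε : 0 < ε) :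
    (∃ C η : ℝ, 0 < η ∧ ∀ H : ℕ, 1 ≤ H →
      (Nat.card {a : Exponent n d → ℤ // (∀ m, |a m| ≤ H) ∧ Exceptional (1 / 2 + ε) a} : ℝ) ≤
        C * (H : ℝ) ^ ((Fintype.card (Exponent n d) : ℝ) - η)) ∧
    (∀ N : ℕ, N ≠ 0 →
      {a : Exponent n d → ℤ | IsSmooth a ∧ ¬ Exceptional (1 / 2 + ε) a ∧ GoodOutside a N}.Finite ∧
      ({a : Exponent n d → ℤ | IsSmooth a ∧ ¬ Exceptional (1 / 2 + ε) a ∧
        GoodOutside a N}.ncard : ℝ) ≤
          (2 * (N : ℝ) ^ (1 / 2 + ε) + 1) ^ Fintype.card (Exponent n d)) ∧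
    (∀ ε₁ : ℝ, 0 < ε₁ → ∃ B : ℕ, ∀ Q : ℕ, 0 < Q → (∀ p : ℕ, p.Prime → p ≤ B → p ∣ Q) →
      ∀ c : Exponent n d → ℤ, (∀ p : ℕ, p.Prime → p ∣ Q → HasGoodReduction c p) →
        ∃ H₀ : ℕ, ∀ H : ℕ, H₀ ≤ H →
          (1 - ε₁) * (2 * (H : ℝ) + 1) ^ Fintype.card (Exponent n d) ≤
            (Nat.card {b : Exponent n d → ℤ // (∀ m, |b m| ≤ H) ∧
              IsSemistable (fun m => c m + Q * b m) ∧
              ¬ Exceptional (1 / 2 + ε) (fun m => c m + Q * b m)} : ℝ)) ∧
    ∃ δ : ℝ, 0 < δ ∧ ∃ H₀ : ℕ, ∀ H : ℕ, H₀ ≤ H →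
      δ * (2 * (H : ℝ) + 1) ^ Fintype.card (Exponent n d) ≤
        (Nat.card {a : Exponent n d → ℤ // (∀ m, |a m| ≤ H) ∧ IsSemistable a ∧
          ¬ Exceptional (1 / 2 + ε) a} : ℝ) := by
  classical
  obtain ⟨h, g, r, M₀, hh, hrel, p1, p2, hconst, hres⟩ :=
    Pool.Agent.Run7.h802.FH.allRes n d hd
  obtain ⟨C₀, hC₀⟩ := ht_le n d
  have hz : ∀ (k : Type) [Field k] (a : Pool.Agent.Run7.h802.HP.Mon n d → k)
      (x : Fin (n + 2) → k), x ≠ 0 → Pool.Agent.Run7.h802.HP.Sing a x → aeval a h = 0 :=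
    fun k _ a x hx hs => (p1 k a x hx hs).1
  have hnl := Pool.Agent.Run7.h351.FH.t_NL n d hd h hh hz
  have hcl : ∀ ε₁ : ℝ, 0 < ε₁ → ∃ B : ℕ, ∀ Q : ℕ, 0 < Q →
      (∀ p : ℕ, p.Prime → p ≤ B → p ∣ Q) →
      ∀ c : Exponent n d → ℤ, (∀ p : ℕ, p.Prime → p ∣ Q → HasGoodReduction c p) →
        ∃ H₀ : ℕ, ∀ H : ℕ, H₀ ≤ H →
          (1 - ε₁) * (2 * (H : ℝ) + 1) ^ Fintype.card (Exponent n d) ≤
            (Nat.card {b : Exponent n d → ℤ // (∀ m, |b m| ≤ H) ∧
              (IsSemistable (fun m => c m + Q * b m) ∧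
              ¬ Exceptional (1 / 2 + ε) (fun m => c m + Q * b m))} : ℝ) := by
    intro ε₁ hε₁
    obtain ⟨B, hB⟩ := Pool.Agent.Run7.h802.FH.classes2 h M₀ hnl hres hz ht 1 C₀ zero_le_one hC₀
      Pool.Agent.Run7.h802.FH.allRad2 Pool.Agent.Run7.h802.FH.allDen hh g r hrel p1 p2
      ε hε ε₁ hε₁
    refine ⟨B, fun Q hQ hQB c hc => ?_⟩
    obtain ⟨H₀, hH₀⟩ := hB Q hQ hQB c
    refine ⟨H₀, fun H hH => (hH₀ H hH).trans ?_⟩
    apply Pool.Agent.Run7.h802.FH.nat_mono
    intro b _ hb
    refine ⟨⟨hb.2.1, fun p hp => ?_⟩, not_exc _ _ hb.2.2.2⟩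
    by_cases hpQ : p ∣ Q
    · left
      refine Pool.Agent.Run7.h796.HP.good_congr c _ p (fun m => ?_) (hc p hp hpQ)
      have : (p : ℤ) ∣ (Q : ℤ) := by exact_mod_cast hpQ
      simpa using this.mul_right (b m)
    · exact (hb.2.2.1 p hp hpQ).imp id (node_of _ p)
  refine ⟨?_, ?_, hcl, ?_⟩
  · obtain ⟨C, η, hη, hs⟩ := Pool.Agent.Run7.h802.FH.saving2 h M₀ hnl hres hz ht 1 C₀
      zero_le_one hC₀ Pool.Agent.Run7.h802.FH.allRad2 1 one_pos (fun _ => 0) ε hε
    refine ⟨C, η, hη, fun H hH => ?_⟩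
    have h1 := hs H hH
    simp only [Nat.cast_one, one_mul, zero_add] at h1
    refine (Pool.Agent.Run7.h802.FH.nat_mono H _ _ ?_).trans h1
    intro a _ ha
    exact ⟨ha.1, fun hb => not_exc _ _ hb ha⟩
  · intro N hN
    have hNr : (0 : ℝ) < N := by exact_mod_cast Nat.pos_of_ne_zero hN
    set T : ℕ := ⌊(N : ℝ) ^ (1 / 2 + ε)⌋₊ with hT
    have hsub : {a : Exponent n d → ℤ | IsSmooth a ∧ ¬ Exceptional (1 / 2 + ε) a ∧
        GoodOutside a N} ⊆ (Pool.Agent.Run7.h796.HP.box (Exponent n d) T : Set _) := by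
      rintro a ⟨h1, h2, h3⟩
      rw [Finset.mem_coe, Pool.Agent.Run7.h796.HP.mem_box]
      intro m
      by_contra hcon
      apply h2
      refine ⟨h1, N, hN, h3, m, ?_⟩
      push Not at hcon
      have h4 : (T : ℤ) + 1 ≤ |a m| := hcon
      have h5 : ((T : ℝ) + 1) ≤ |(a m : ℝ)| := by
        rw [← Int.cast_abs]
        exact_mod_cast h4
      exact (Nat.lt_floor_add_one _).trans_le h5
    refine ⟨(Finset.finite_toSet _).subset hsub, ?_⟩
    have h6 := Set.ncard_le_ncard hsub (Finset.finite_toSet _)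
    rw [Set.ncard_coe_finset] at h6
    have h7 : (({a : Exponent n d → ℤ | IsSmooth a ∧ ¬ Exceptional (1 / 2 + ε) a ∧
        GoodOutside a N}.ncard : ℕ) : ℝ) ≤
        ((Pool.Agent.Run7.h796.HP.box (Exponent n d) T).card : ℝ) := by exact_mod_cast h6
    rw [Pool.Agent.Run7.h796.HP.card_box] at h7
    refine h7.trans (pow_le_pow_left₀ (by positivity) ?_ _)
    have h8 : (T : ℝ) ≤ (N : ℝ) ^ (1 / 2 + ε) := Nat.floor_le (by positivity)
    linarith
  · obtain ⟨B, hB⟩ := hcl (1 / 2) (by norm_num)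
    choose a ha using fun p : ℕ => fun hp : p.Prime =>
      Pool.Agent.Run7.h216.BP.smooth n d hn hd p hp
    obtain ⟨c, hc⟩ := Pool.Agent.Run7.h796.HP.crt (ι := Exponent n d)
      (fun p m => if hp : p.Prime then a p hp m else 0)
      ((Finset.range (B + 1)).filter Nat.Prime) (fun p hp => (Finset.mem_filter.1 hp).2)
    have hQ0 : 0 < B.factorial := Nat.factorial_pos B
    have hgood : ∀ p : ℕ, p.Prime → p ∣ B.factorial → HasGoodReduction c p := by
      intro p hp hpQ
      have hpB : p ≤ B := (hp.dvd_factorial).1 hpQ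
      have hmem : p ∈ (Finset.range (B + 1)).filter Nat.Prime := by
        simp only [Finset.mem_filter, Finset.mem_range]
        exact ⟨by omega, hp⟩
      have h1 := hc p hmem
      simp only [hp, dif_pos] at h1
      exact Pool.Agent.Run7.h796.HP.good_congr (a p hp) c p h1 (ha p hp)
    obtain ⟨H₀, hH₀⟩ := hB B.factorial hQ0 (fun p hp hpB => (hp.dvd_factorial).2 hpB) c hgood
    refine Pool.Agent.Run7.h802.FH.pos_of_class (fun a : Exponent n d → ℤ => IsSemistable a ∧
      ¬ Exceptional (1 / 2 + ε) a) B.factorial hQ0 c H₀ ?_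
    intro H hH
    have := hH₀ H hH
    norm_num at this ⊢
    exact this

end Pool.Agent.Results.MP_78e9a5_nt.AlmostAllHypersurfaces
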