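import Pool.Agent.Run7.h879.DS.Sum3

/-!
# Finiteness of the direct sums of potentially abelian systems and systems with big residual images

`F` is a number field, `S` a finite set of primes, `w` a natural number, `n ≥ 1`. The integral systems
`T = (T_ℓ)_ℓ` over `F` of rank `n` (starting files, `Pool.Agent.R390.SF.Defs`) have the properties of
the realisations of a pure `ℤ`-motive of weight `w`: pure good reduction outside `S` and semisimple
`V_ℓ = T_ℓ ⊗ ℚ_ℓ`.

**Theorem.** (1) Up to isomorphism of the `T_ℓ` for all prime numbers `ℓ` simultaneously there are only
finitely many such systems for which `V_ℓ` is, for every `ℓ`, the direct sum of the representation of a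
potentially abelian semisimple system `A` (over some finite extension of `F` the images are abelian;
motives of potential CM type) and of those of systems `B_1, …, B_k` (repetitions are allowed) for which
`V_ℓ(B_i)` is irreducible for all `ℓ` and the image of `G_F` on `T_ℓ(B_i) / ℓ` is big for almost all `ℓ`:
its commutant consists of scalars and it contains an element `≠ 1` of `ℓ`-power order. `A`, `k` and the
`B_i` depend on `T` and are not bounded in advance. For each such `T` and almost all `ℓ` all stable
lattices of `V_ℓ` are isomorphic to `T_ℓ`.

(2) The maximally degenerate systems of rank at least two (for every `ℓ` one Jordan block at all places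
above a prime `p ≠ ℓ` in `S`) are such systems `B_i`.

The proof. By the criterion of `PotentiallyAbelian` (helper306) it is enough to show the uniqueness of
the lattices for almost all `ℓ`. A lattice in a direct sum of two representations whose lattices are
unique is isomorphic to the direct sum if every common isomorphism of simple quotients of reductions
lifts (Goursat). If `T_ℓ(B) / ℓ` were a quotient of the reduction of `A` then a power `u^m` of an element
`u ≠ 1` of `ℓ`-power order (`m` prime to `ℓ`) would act trivially, by the fixed point theorem for
`ℓ`-groups, a contradiction. Two of the `B_i` with different Frobenius polynomials have non-isomorphic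
reductions for almost all `ℓ`; if the polynomials are equal then the systems are isomorphic for almost all
`ℓ`, and the endomorphisms of the reduction are scalars and lift.
-/

set_option autoImplicit false

namespace Pool.Agent.Results.MP_78e9a5_nt.DirectSums

open Pool.Agent.R390.SF Pool.Agent.R390.SF.IntegralSystem Pool.Agent.Run7.h306.AB
open Pool.Agent.Run7.h879.DS

/-- **Finiteness of the direct sums of potentially abelian systems and systems with big residual
images.** -/
theorem result (F : SubFld ℚ) [FiniteDimensional ℚ F] (n w : ℕ) (hn : 0 < n) (S : Finset ℕ) :
    FinitelyMany (BigSum (F := F) (n := n) S w) ∧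
      (∀ T : IntegralSystem F n, BigSum S w T → UniqueLattices T) ∧
      ∀ (r : ℕ) (B : IntegralSystem F r), 2 ≤ r → B.PureSystem S w →
        B.IsDegenerate S Set.univ → Big S w B :=
  ⟨(main3 hn w S).1, (main3 hn w S).2, fun _ _ h hP hD => big_of_deg h hP hD⟩

end Pool.Agent.Results.MP_78e9a5_nt.DirectSums
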