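import Pool.Agent.Run7.h457.SF.Main

/-!
# Shafarevich finiteness, up to isogenies of degree prime to finitely many primes, for pure motives
generated by hyperkähler varieties

`F` is a number field, `S` a finite set of finite places of `F`, and `n`, `w` are natural numbers. We
consider the pure `ℤ`-motives `X = (M, T)` over `F` of rank `n` and weight `w` with pure good reduction
outside `S`, where `M` belongs to a set `𝒞` of motives with the property `IsGenerated`: any two of them
are objects of the tannakian category generated by finitely many projective hyperkähler varieties over
`F`, of any dimensions, deformation types and polarization degrees, and a motive `P` for which the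
Mumford-Tate conjecture holds (together with the `H²` of these varieties); for example `𝒞` can be the
set of all objects of the tannakian category generated by all hyperkähler varieties over `F`.

1. There is a finite set `𝒬` of places outside `S`, which depends only on `F`, `S` and `n`, such that
the traces of the Frobenius elements at the places in `𝒬` determine the rational Hodge structure of `M`
and all the `p`-adic representations of the Galois group of `F`; if the Hodge classes in `Hom(M, M')`
are algebraic, then also the motive `M` over `F`.

2. For every finite set `Λ` of prime numbers there are only finitely many such `X` up to isomorphism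
and isogenies of degree prime to `Λ`: finitely many rational Hodge structures with a lattice over
`ℤ_(Λ)`, finitely many systems of representations on `T_p` for `p ∈ Λ` and `M_p` for all `p`, and
finitely many pure `ℤ_(Λ)`-motives over `F` if the Hodge classes are algebraic. Their number is
bounded by a number `N` which depends only on `F`, `S`, `n`, `w` and `Λ`.

The structure `Homs` (homomorphisms of motives) can be applied also to motivated cycles (André). For
the motives generated by the `H²(X_t)` and by abelian varieties all Hodge classes are motivated.

The number of the deformation types of hyperkähler varieties with given Betti numbers is not known to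
be finite, and no bound for the dimensions and polarizations is used. There is no condition on the
Hodge numbers, on the reduction at the places in `S` and on the places above `p`.
-/

set_option autoImplicit false

namespace Pool.Agent.Results.MP_78e9a5_nt.HyperkaehlerShafarevich

open NumberField IsDedekindDomain Run7.h457.PM Run7.h457.SF

theorem result (F : Type) [Field F] [NumberField F] (S : Finset (HeightOneSpectrum (𝓞 F))) (n : ℕ)
    (hn : 0 < n) :
    (∃ 𝒬 : Finset (HeightOneSpectrum (𝓞 F)), (∀ v ∈ 𝒬, v ∉ S) ∧
      ∀ 𝒞 : Set (Motive F), IsGenerated 𝒞 → ∀ (w w' : ℕ) (X X' : IMotive F),
        X.M ∈ 𝒞 → X'.M ∈ 𝒞 → X.IsPure S n w → X'.IsPure S n w' →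
        (∀ v ∈ 𝒬, (X.poly v).coeff (n - 1) = (X'.poly v).coeff (n - 1)) →
        Isomorphic ∅ X X') ∧
    ∀ (w : ℕ) (Λ : Finset ℕ), ∃ N : ℕ, ∀ 𝒞 : Set (Motive F), IsGenerated 𝒞 →
      ∃ m ≤ N, ∃ Y : Fin m → IMotive F, (∀ i, (Y i).M ∈ 𝒞 ∧ (Y i).IsPure S n w) ∧
        ∀ X : IMotive F, X.M ∈ 𝒞 → X.IsPure S n w → ∃ i, Isomorphic Λ (Y i) X :=
  ⟨determined hn S, finiteness hn S⟩

end Pool.Agent.Results.MP_78e9a5_nt.HyperkaehlerShafarevich
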