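import Pool.Agent.Run7.h306.AB10

/-!
# Finiteness of the potentially abelian integral systems (complex multiplication)

`F` is a number field, `S` a finite set of primes, `w` a natural number, `n ≥ 1`. The integral systems
`T = (T_ℓ)_ℓ` over `F` of rank `n` (starting files, `Pool.Agent.R390.SF.Defs`) have the properties of
the realisations of a pure `ℤ`-motive of weight `w`: here pure good reduction outside `S` and semisimple
`V_ℓ = T_ℓ ⊗ ℚ_ℓ`. There is no condition at the places in `S`, on the Hodge numbers, on the rank, no
polarization, and the `V_ℓ` may be reducible.

**Theorem 1 (the motives of CM type).** Up to isomorphism of the `T_ℓ` for all prime numbers `ℓ`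
simultaneously there are only finitely many such systems which are potentially abelian: over some finite
extension of `F`, depending on `T` and not bounded, the images of the representations are abelian. (This
is so for the realisations of the motives which become of CM type over a finite extension: Artin motives,
abelian varieties with complex multiplication, Fermat varieties and quotients of their products, singular
K3 surfaces, ...) Moreover for each such `T` and almost all `ℓ` all stable lattices of `V_ℓ` are isomorphic.

**Theorem 2 (criterion).** Let `C` be any class of semisimple systems with pure good reduction outside `S`,
stable under the change of finitely many `T_ℓ` to other stable lattices of `V_ℓ`. Then `C` contains only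
finitely many systems up to isomorphism if and only if for every `T` in `C` and almost all `ℓ` (depending
on `T`) all stable lattices of `V_ℓ` are isomorphic. (The implication from right to left does not need the
stability.) So the finiteness in Q1 for the integral realisations is a question about one rational motive
at a time.

The proof of Theorem 1. Let `H` be a normal open subgroup with abelian images and `N = (n²(n²+1))!`. The
eigenvalues of the Frobenius elements are algebraic of degree `≤ n`, so a root of unity which is a quotient
of two of them is killed by `N`. We choose a Frobenius element `σ` in `H` such that `σ^N` has the maximal
number of eigenvalues on `V_ℓ` (a number which does not depend on `ℓ`). If for some `h` in `H` and some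
`ℓ` the matrix `ρ_ℓ(h)^N` did not commute with the commutant of `ρ_ℓ(σ)`, then some `σ^k h` would have more
eigenvalues (after taking `N`-th powers), and a Frobenius element close to it too. So for almost all `ℓ`
the elements of `H` which commute with the commutant of `ρ_ℓ(σ)` form a subgroup `Γ` of index prime to `ℓ` of
the Galois group. The squarefree part of the Frobenius polynomial of `σ` is separable modulo almost all `ℓ`;
the corresponding projector and the average over the cosets of `Γ` show that `T_ℓ/ℓ` is semisimple and that
the homomorphisms modulo `ℓ` of two stable lattices can be lifted. The finiteness of the systems up to
rational isomorphism is Faltings' argument, in the starting files (`traces_of_finite`), as is the local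
finiteness of the lattices (`jz`).
-/

set_option autoImplicit false

namespace Pool.Agent.Results.MP_78e9a5_nt.PotentiallyAbelian

open Pool.Agent.R390.SF Pool.Agent.R390.SF.IntegralSystem Pool.Agent.Run7.h306.AB

/-- **Finiteness of the potentially abelian systems, and a criterion for the finiteness in general.** -/
theorem result (F : SubFld ℚ) [FiniteDimensional ℚ F] (n w : ℕ) (hn : 0 < n) (S : Finset ℕ) :
    (FinitelyMany (InClass (F := F) (n := n) S w) ∧
      ∀ T : IntegralSystem F n, InClass S w T → UniqueLattices T) ∧
    ∀ Cl : IntegralSystem F n → Prop, (∀ T, Cl T → T.GoodSystem S w ∧ Semisimple T) →
      ((∀ T, Cl T → UniqueLattices T) → FinitelyMany Cl) ∧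
      ((∀ T T', Cl T → Isogenous T T' → Cl T') →
        (FinitelyMany Cl ↔ ∀ T, Cl T → UniqueLattices T)) :=
  main hn w S

end Pool.Agent.Results.MP_78e9a5_nt.PotentiallyAbelian
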